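import Mathlib

/-!
# MP_5f67f4: lexicographic initial segments of signatures need not have minimal deletion shadow

For `r = 4`, `n = 3` and the signature `(1, 0, 1, 1)` the family `F_s` has `36` words and a
deletion shadow of size `13`, while the `27` words over `{1,2,3}` together with the `9` words `xy4`,
`x, y ≤ 3`, have a deletion shadow of size `12`.
-/

set_option autoImplicit false

namespace Pool.Agent.Results.MP_5f67f4_co.LexSegmentsFail

/-- The set `[r]^n` of words of length `n` over the alphabet `[r] = {1, ..., r}`. -/
def words (r n : ℕ) : Set (List ℕ) := {w | w.length = n ∧ ∀ x ∈ w, 1 ≤ x ∧ x ≤ r}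

/-- The deletion shadow: all words obtained from a word of the family by deleting one letter. -/
def shadow (F : Set (List ℕ)) : Set (List ℕ) := {u | ∃ w ∈ F, ∃ i < w.length, u = w.eraseIdx i}

/-- `F ⊆ [r]^n` has minimal deletion shadow given its size. -/
def HasMinimalShadow (r n : ℕ) (F : Set (List ℕ)) : Prop :=
  ∀ G ⊆ words r n, G.ncard = F.ncard → (shadow F).ncard ≤ (shadow G).ncard

/-- Signatures are given by the number `s x` of occurrences of each letter `x`, `1 ≤ x ≤ r`; the
coordinates are listed as `(s r, s (r - 1), ..., s 1)`. This is the order `p <_L q`: at the first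
coordinate at which they differ, `p` is smaller. -/
def SigLT (r : ℕ) (p q : ℕ → ℕ) : Prop :=
  ∃ i ∈ Finset.Icc 1 r, (∀ j ∈ Finset.Ioc i r, p j = q j) ∧ p i < q i

/-- The order `p ≤_L q` of signatures. -/
def SigLE (r : ℕ) (p q : ℕ → ℕ) : Prop := SigLT r p q ∨ ∀ i ∈ Finset.Icc 1 r, p i = q i

/-- The family `F_s` of all words of length `n` over `[r]` whose signature is `≤_L s`. -/
def family (r n : ℕ) (s : ℕ → ℕ) : Set (List ℕ) :=
  {w | w ∈ words r n ∧ SigLE r (fun x => w.count x) s}

/-- All words of length `n` over `[r]`, as a list. -/
def allWords (r : ℕ) : ℕ → List (List ℕ)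
  | 0 => [[]]
  | n + 1 => (allWords r n).flatMap fun w => (List.range r).map fun x => (x + 1) :: w

theorem mem_allWords (r n : ℕ) (w : List ℕ) : w ∈ allWords r n ↔ w ∈ words r n := by
  induction n generalizing w with
  | zero =>
    simp only [allWords, List.mem_singleton, words, Set.mem_ofPred_eq]
    constructor
    · rintro rfl; simp
    · rintro ⟨h, -⟩; exact List.length_eq_zero_iff.1 h
  | succ n ih =>
    simp only [allWords, List.mem_flatMap, List.mem_map, List.mem_range]
    constructor
    · rintro ⟨v, hv, x, hx, rfl⟩
      have h := (ih v).1 hv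
      refine ⟨by simp [h.1], ?_⟩
      intro y hy
      rcases List.mem_cons.1 hy with rfl | hy
      · omega
      · exact h.2 y hy
    · rintro ⟨h1, h2⟩
      cases w with
      | nil => simp at h1
      | cons y v =>
        refine ⟨v, (ih v).2 ⟨by simpa using h1, fun x hx => h2 x (List.mem_cons_of_mem _ hx)⟩,
          y - 1, ?_, ?_⟩
        · have := h2 y (by simp); omega
        · have := h2 y (by simp)
          rw [show y - 1 + 1 = y by omega]

/-- The deletion shadow of a finite family, computed. -/
def shadowF (F : Finset (List ℕ)) : Finset (List ℕ) :=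
  F.biUnion fun w => (Finset.range w.length).image fun i => w.eraseIdx i

theorem shadow_coe (F : Finset (List ℕ)) : shadow (F : Set (List ℕ)) = (shadowF F : Set _) := by
  ext u
  simp only [shadow, shadowF, Set.mem_ofPred_eq, Finset.coe_biUnion, Finset.coe_image, Set.mem_iUnion,
    Set.mem_image, Finset.mem_coe, Finset.mem_range, exists_prop]
  constructor
  · rintro ⟨w, hw, i, hi, rfl⟩; exact ⟨w, hw, i, hi, rfl⟩
  · rintro ⟨w, hw, i, hi, rfl⟩; exact ⟨w, hw, i, hi, rfl⟩

instance (r : ℕ) (p q : ℕ → ℕ) : Decidable (SigLE r p q) := by
  unfold SigLE SigLT; infer_instance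

/-- The signature `(1, 0, 1, 1)` of words over four letters: one letter `4`, no letter `3`, one
letter `2`, one letter `1`. -/
def sig (x : ℕ) : ℕ := if x = 3 then 0 else 1

/-- The family `F_s` for `r = 4`, `n = 3`, `s = (1, 0, 1, 1)`, computed. -/
def fam : Finset (List ℕ) :=
  ((allWords 4 3).filter fun w => SigLE 4 (fun x => w.count x) sig).toFinset

theorem family_eq : family 4 3 sig = (fam : Set (List ℕ)) := by
  ext w
  simp only [family, fam, Set.mem_ofPred_eq, List.coe_toFinset, List.mem_filter,
    mem_allWords, decide_eq_true_eq]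

/-- The better family: the words over `{1,2,3}` and the words `xy4` with `x, y ≤ 3`. -/
def better : Finset (List ℕ) :=
  ((allWords 4 3).filter fun w => w.getD 0 0 ≤ 3 ∧ w.getD 1 0 ≤ 3).toFinset

theorem card_family : (family 4 3 sig).ncard = 36 := by
  rw [family_eq, Set.ncard_coe_finset]; decide +kernel

theorem card_shadow_family : (shadow (family 4 3 sig)).ncard = 13 := by
  rw [family_eq, shadow_coe, Set.ncard_coe_finset]; decide +kernel

theorem card_better : ((better : Set (List ℕ))).ncard = 36 := by
  rw [Set.ncard_coe_finset]; decide +kernel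

theorem card_shadow_better : (shadow (better : Set (List ℕ))).ncard = 12 := by
  rw [shadow_coe, Set.ncard_coe_finset]; decide +kernel

/-- The answer to Q1 is negative: it is not true that for all `r ≥ 2`, `n ≥ 1` and all signatures
`s` (the numbers `s x`, `1 ≤ x ≤ r`, of letters have sum `n`) the family `F_s` has minimal deletion
shadow given its size. (It fails for `r = 4`, `n = 3`, `s = (1, 0, 1, 1)`: this family has `36` words
and a shadow of size `13`, and there is a family of `36` words of `[4]^3` with a shadow of size
`12`.) -/
theorem result :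
    ¬ ∀ (r n : ℕ) (s : ℕ → ℕ), 2 ≤ r → 1 ≤ n → ∑ x ∈ Finset.Icc 1 r, s x = n →
      HasMinimalShadow r n (family r n s) := by
  have h5 : (better : Set (List ℕ)) ⊆ words 4 3 := by
    intro w hw
    have : w ∈ allWords 4 3 := by
      have hw' : w ∈ better := hw
      simp only [better, List.mem_toFinset, List.mem_filter] at hw'
      exact hw'.1
    exact (mem_allWords 4 3 w).1 this
  intro h
  have := h 4 3 sig (by norm_num) (by norm_num) (by decide) _ h5
    (by rw [card_family, card_better])
  rw [card_shadow_family, card_shadow_better] at this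
  omega

end Pool.Agent.Results.MP_5f67f4_co.LexSegmentsFail
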